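import Pool.Agent.Y6.G.Stm
import Pool.Agent.Y211.EF.Pair

/-! Project EP, job STA: the contribution of the triads with rotation. -/

set_option autoImplicit false

namespace Pool.Agent.Y396.EP.STA

open Set Filter Topology
open Pool.Agent.Y6.G
open Pool.Agent.Y6.F (ln S_CODE)
open Pool.Agent.Y6.M (Z3 C3 Md cK Frame len nsq br)

/-- the real inequality behind the estimate -/
lemma core {A B L μ c EA EB E ea eb : ℝ} (hA : 1 ≤ A) (hB : 1 ≤ B) (hL : 1 ≤ L) (hAμ : A ≤ μ)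
    (hBμ : B ≤ μ) (hLμ : L ≤ μ) (hc0 : 0 ≤ c) (hc : c ≤ 2 * Real.pi * L) (hEA0 : 0 ≤ EA)
    (hEB0 : 0 ≤ EB) (hE0 : 0 ≤ E) (hea0 : 0 ≤ ea) (heb0 : 0 ≤ eb) (hea : ea ≤ EA) (heb : eb ≤ EB)
    (hEE : EA * EB ≤ L * E) :
    c / (10 ^ 60 * μ ^ 16) *
      (2 * ea * eb + (10 ^ 4 * A ^ 2 * EA * eb + ea * (10 ^ 4 * B ^ 2 * EB))) ≤
      (10 ^ 50)⁻¹ * (L ^ 7)⁻¹ * E * (A ^ 4)⁻¹ := by
  have hA0 : 0 < A := by linarith
  have hB0 : 0 < B := by linarith
  have hL0 : 0 < L := by linarith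
  have hμ : 1 ≤ μ := hL.trans hLμ
  have hμ0 : 0 < μ := by linarith
  have h1 : ea * eb ≤ EA * EB := mul_le_mul hea heb heb0 hEA0
  have h2 : EA * eb ≤ EA * EB := mul_le_mul_of_nonneg_left heb hEA0
  have h3 : ea * EB ≤ EA * EB := mul_le_mul_of_nonneg_right hea hEB0
  have hEE0 : 0 ≤ EA * EB := mul_nonneg hEA0 hEB0
  have hA2 : A ^ 2 ≤ μ ^ 2 := pow_le_pow_left₀ hA0.le hAμ 2
  have hB2 : B ^ 2 ≤ μ ^ 2 := pow_le_pow_left₀ hB0.le hBμ 2
  have hμ2 : 1 ≤ μ ^ 2 := one_le_pow₀ hμ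
  have h4 : A ^ 2 * (EA * eb) ≤ μ ^ 2 * (EA * EB) :=
    mul_le_mul hA2 h2 (mul_nonneg hEA0 heb0) (by positivity)
  have h5 : B ^ 2 * (ea * EB) ≤ μ ^ 2 * (EA * EB) :=
    mul_le_mul hB2 h3 (mul_nonneg hea0 hEB0) (by positivity)
  have h6 : ea * eb ≤ μ ^ 2 * (EA * EB) := by nlinarith
  have h8 : μ ^ 2 * (EA * EB) ≤ μ ^ 2 * (L * E) := mul_le_mul_of_nonneg_left hEE (by positivity)
  have hS : 2 * ea * eb + (10 ^ 4 * A ^ 2 * EA * eb + ea * (10 ^ 4 * B ^ 2 * EB)) ≤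
      3 * 10 ^ 4 * μ ^ 2 * (L * E) := by
    have h7 : 2 * ea * eb + (10 ^ 4 * A ^ 2 * EA * eb + ea * (10 ^ 4 * B ^ 2 * EB)) =
        2 * (ea * eb) + 10 ^ 4 * (A ^ 2 * (EA * eb)) + 10 ^ 4 * (B ^ 2 * (ea * EB)) := by ring
    have h9 : 0 ≤ μ ^ 2 * (L * E) := by positivity
    rw [h7]
    nlinarith
  have hS0 : 0 ≤ 2 * ea * eb + (10 ^ 4 * A ^ 2 * EA * eb + ea * (10 ^ 4 * B ^ 2 * EB)) := by
    positivity
  have hD : 0 < 10 ^ 60 * μ ^ 16 := by positivity
  have hc8 : c ≤ 8 * L := by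
    have := Real.pi_lt_four
    nlinarith
  have h10 : L ^ 2 * (μ ^ 14)⁻¹ ≤ (L ^ 7)⁻¹ * (A ^ 4)⁻¹ := by
    rw [← mul_inv, ← div_eq_mul_inv, div_le_iff₀ (by positivity), inv_mul_eq_div,
      le_div_iff₀ (by positivity)]
    calc L ^ 2 * (L ^ 7 * A ^ 4) = L ^ 9 * A ^ 4 := by ring
      _ ≤ μ ^ 9 * μ ^ 4 := mul_le_mul (pow_le_pow_left₀ hL0.le hLμ 9)
          (pow_le_pow_left₀ hA0.le hAμ 4) (by positivity) (by positivity)
      _ = μ ^ 13 := by ring
      _ ≤ μ ^ 14 := pow_le_pow_right₀ hμ (by norm_num)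
  calc c / (10 ^ 60 * μ ^ 16) *
        (2 * ea * eb + (10 ^ 4 * A ^ 2 * EA * eb + ea * (10 ^ 4 * B ^ 2 * EB)))
      ≤ (8 * L) / (10 ^ 60 * μ ^ 16) * (3 * 10 ^ 4 * μ ^ 2 * (L * E)) := by
        apply mul_le_mul _ hS hS0 (by positivity)
        exact div_le_div_of_nonneg_right hc8 hD.le
    _ = (24 * 10 ^ 4 / 10 ^ 60) * (L ^ 2 * (μ ^ 14)⁻¹) * E := by
        have hL0' : L ≠ 0 := hL0.ne'
        have hμ0' : μ ≠ 0 := hμ0.ne'
        field_simp
        ring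
    _ ≤ (10 ^ 50)⁻¹ * ((L ^ 7)⁻¹ * (A ^ 4)⁻¹) * E := by
        apply mul_le_mul_of_nonneg_right _ hE0
        apply mul_le_mul _ h10 (by positivity) (by positivity)
        norm_num
    _ = _ := by ring

theorem t_STA : Pool.Agent.Y6.G.S_STA := by
  classical
  intro _ hCODE hVEC hLAT hENV h hF M hM i
  obtain ⟨_, _, _, _, hln, htri⟩ := hCODE
  obtain ⟨hanti, hhalf, _, _, hE1, _⟩ := hENV.1 M hM
  obtain ⟨hls, hlt⟩ := hLAT.1
  have hln1 : ∀ a, 1 ≤ ln a := fun a => (hln a).1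
  have hln0 : ∀ a, 0 < ln a := fun a => lt_of_lt_of_le one_pos (hln1 a)
  have he0 : ∀ a, 0 ≤ eF M a := by
    intro a
    have := (hE1 (ln a)).1
    have := hln0 a
    unfold eF
    split_ifs <;> positivity
  have heE : ∀ a, eF M a ≤ env M (ln a) := by
    intro a
    have h1 := (hE1 (ln a)).1
    have h2 := hln1 a
    unfold eF
    split_ifs
    · exact le_rfl
    · have h3 : (ln a ^ 7)⁻¹ ≤ 1 := inv_le_one_of_one_le₀ (one_le_pow₀ h2)
      have h4 : ((10:ℝ) ^ 20)⁻¹ * (ln a ^ 7)⁻¹ ≤ 1 := by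
        have : ((10:ℝ) ^ 20)⁻¹ ≤ 1 := inv_le_one_of_one_le₀ (by norm_num)
        have h5 : (0:ℝ) ≤ (ln a ^ 7)⁻¹ := by positivity
        calc ((10:ℝ) ^ 20)⁻¹ * (ln a ^ 7)⁻¹ ≤ 1 * 1 := mul_le_mul this h3 h5 zero_le_one
          _ = 1 := one_mul 1
      calc ((10:ℝ) ^ 20)⁻¹ * (ln a ^ 7)⁻¹ * env M (ln a) ≤ 1 * env M (ln a) :=
            mul_le_mul_of_nonneg_right h4 h1.le
        _ = env M (ln a) := one_mul _
  have hr0 : ∀ a, 0 ≤ rF M a := by
    intro a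
    have := (hE1 (ln a)).1
    have := hln0 a
    unfold rF
    positivity
  have hE0 : 0 < env M (ln i) := (hE1 (ln i)).1
  have hL1 := hln1 i
  have hL0 := hln0 i
  -- product of the envelopes
  have hprod : ∀ a b : Md, a.1.1 + b.1.1 = i.1.1 →
      env M (ln a) * env M (ln b) ≤ ln i * env M (ln i) := by
    intro a b hab
    obtain ⟨t1, _, _⟩ := htri i a b hab
    have h2 := hhalf (ln i) (hln1 i)
    have ha := hE1 (ln a)
    have hb := hE1 (ln b)
    have hL2 : 0 < ln i / 2 := by positivity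
    rcases le_total (ln a) (ln b) with hle | hle
    · have h3 : env M (ln b) ≤ env M (ln i / 2) := hanti _ _ hL2 (by linarith)
      calc env M (ln a) * env M (ln b) ≤ 1 * env M (ln b) := mul_le_mul_of_nonneg_right ha.2 hb.1.le
        _ = env M (ln b) := one_mul _
        _ ≤ ln i * env M (ln i) := h3.trans h2
    · have h3 : env M (ln a) ≤ env M (ln i / 2) := hanti _ _ hL2 (by linarith)
      calc env M (ln a) * env M (ln b) ≤ env M (ln a) * 1 := mul_le_mul_of_nonneg_left hb.2 ha.1.le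
        _ = env M (ln a) := mul_one _
        _ ≤ ln i * env M (ln i) := h3.trans h2
  set C : ℝ := (10 ^ 50)⁻¹ * (ln i ^ 7)⁻¹ * env M (ln i) with hC
  have hC0 : 0 ≤ C := by positivity
  have hzero : ∀ a b : Md, a.1.1 + b.1.1 ≠ i.1.1 → cK h i a b = 0 := by
    intro a b hab
    unfold cK
    exact if_neg hab
  have key := Pool.Agent.Y211.EF.sum_pair i (fun p => if 0 < D0 i p then tm h M i p else 0)
    (fun a => C * (ln a ^ 4)⁻¹) (fun _ => 0)
    (fun a => by have := hln0 a; positivity) (fun _ => le_rfl) (hls.mul_left C) summable_zero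
    (fun p => by
      split_ifs with hD
      · unfold tm
        rw [if_pos hD]
        have := he0 p.1
        have := he0 p.2
        have := hr0 p.1
        have := hr0 p.2
        positivity
      · exact le_rfl)
    (fun p hp => by
      show (if 0 < D0 i p then tm h M i p else 0) = 0
      split_ifs with hD
      · unfold tm
        rw [if_pos hD, hzero p.1 p.2 hp, norm_zero]
        simp
      · rfl)
    (fun p hp => by
      show (if 0 < D0 i p then tm h M i p else 0) ≤ C * (ln p.1 ^ 4)⁻¹ + 0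
      have hla := hln1 p.1
      have hla0 := hln0 p.1
      split_ifs with hD
      · have hm1 : ln p.1 ≤ mx i p := (le_max_left _ _).trans (le_max_left _ _)
        have hm2 : ln p.2 ≤ mx i p := (le_max_right _ _).trans (le_max_left _ _)
        have hm3 : ln i ≤ mx i p := le_max_right _ _
        have hD' : D0 i p = 10 ^ 60 * mx i p ^ 16 := by
          unfold D0 at hD ⊢
          split_ifs at hD ⊢
          · exact absurd hD (lt_irrefl _)
          · rfl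
        unfold tm
        rw [if_pos hD, hD', add_zero]
        have hc := core (c := ‖cK h i p.1 p.2‖) (ea := eF M p.1) (eb := eF M p.2)
          hla (hln1 p.2) hL1 hm1 hm2 hm3 (norm_nonneg _) ((hVEC h hF).2.1 i p.1 p.2).1
          (hE1 (ln p.1)).1.le (hE1 (ln p.2)).1.le hE0.le (he0 p.1) (he0 p.2) (heE p.1) (heE p.2)
          (hprod p.1 p.2 hp)
        exact hc
      · positivity)
  refine ⟨key.1, key.2.trans ?_⟩
  rw [tsum_mul_left, tsum_zero, add_zero]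
  have h1 : 2 * (C * ∑' a : Md, (ln a ^ 4)⁻¹) ≤ 2 * (C * 1000) :=
    mul_le_mul_of_nonneg_left (mul_le_mul_of_nonneg_left hlt hC0) (by norm_num)
  refine h1.trans ?_
  have hX : 0 ≤ (ln i ^ 7)⁻¹ * env M (ln i) := by positivity
  calc 2 * (C * 1000) = ((10 ^ 50)⁻¹ * 2000) * ((ln i ^ 7)⁻¹ * env M (ln i)) := by
        rw [hC]
        ring
    _ ≤ ((10 ^ 20)⁻¹ / 10) * ((ln i ^ 7)⁻¹ * env M (ln i)) := by
        apply mul_le_mul_of_nonneg_right _ hX
        norm_num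
    _ = _ := by ring

end Pool.Agent.Y396.EP.STA
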