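import Pool.Agent.Y6.G.Stm

/-! Project EP, job STB: the contribution of the triads without rotation. -/

set_option autoImplicit false

namespace Pool.Agent.Y396.EP.STB

open Set Filter Topology
open Pool.Agent.Y6.G
open Pool.Agent.Y6.F (ln S_CODE)
open Pool.Agent.Y6.M (Z3 C3 Md cK Frame len nsq br)

/-- the frequency `t e_j` -/
def wv (j : Fin 3) (t : ℤ) : Z3 := fun l => if l = j then t else 0

/-- the frequency `t^61 e_(j+1)` -/
def Wv (j : Fin 3) (t : ℤ) : Z3 := fun l => if l = j + 1 then t ^ 61 else 0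

lemma nsq_wv (j : Fin 3) (t : ℤ) : nsq (wv j t) = t ^ 2 := by
  unfold nsq wv
  fin_cases j <;> simp [Fin.sum_univ_three]

lemma nsq_Wv (j : Fin 3) (t : ℤ) : nsq (Wv j t) = (t ^ 61) ^ 2 := by
  generalize hu : t ^ 61 = u
  unfold nsq Wv
  rw [hu]
  fin_cases j <;> simp [Fin.sum_univ_three]

lemma nsq_y (j : Fin 3) (t : ℤ) : nsq (wv j t + Wv j t) = t ^ 2 + (t ^ 61) ^ 2 := by
  generalize hu : t ^ 61 = u
  unfold nsq wv Wv
  rw [hu]
  fin_cases j <;> simp [Fin.sum_univ_three]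
  ring

lemma len_neg (k : Z3) : len (-k) = len k := by
  unfold len nsq
  simp

lemma len_wv (j : Fin 3) (t : ℤ) : len (wv j t) = |(t : ℝ)| := by
  unfold len
  rw [nsq_wv]
  push_cast
  exact Real.sqrt_sq_eq_abs _

lemma len_Wv (j : Fin 3) (t : ℤ) : len (Wv j t) = |(t : ℝ)| ^ 61 := by
  unfold len
  rw [nsq_Wv]
  push_cast
  rw [Real.sqrt_sq_eq_abs, abs_pow]

lemma lens (j : Fin 3) (t : ℤ) (ht : t ≠ 0) : 1 ≤ len (wv j t) ∧ len (wv j t) ≤ len (Wv j t) ∧
    len (Wv j t) ≤ len (wv j t + Wv j t) ∧ len (wv j t + Wv j t) ≤ len (Wv j t) + 1 := by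
  have hs : (1 : ℝ) ≤ |(t : ℝ)| := by
    have := Int.one_le_abs ht
    exact_mod_cast this
  rw [len_wv, len_Wv]
  have hy : len (wv j t + Wv j t) = √(|(t : ℝ)| ^ 2 + (|(t : ℝ)| ^ 61) ^ 2) := by
    have q1 : (t : ℝ) ^ 2 = |(t : ℝ)| ^ 2 := (sq_abs _).symm
    have q2 : ((t : ℝ) ^ 61) ^ 2 = (|(t : ℝ)| ^ 61) ^ 2 := by
      rw [← abs_pow]
      exact (sq_abs _).symm
    have q3 : ((nsq (wv j t + Wv j t) : ℤ) : ℝ) = (t : ℝ) ^ 2 + ((t : ℝ) ^ 61) ^ 2 := by
      rw [nsq_y]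
      push_cast
      rfl
    unfold len
    rw [q3, q1, q2]
  rw [hy]
  generalize |(t : ℝ)| = s at hs
  have h61 : s ≤ s ^ 61 := le_self_pow₀ hs (by norm_num)
  have h261 : s ^ 2 ≤ s ^ 61 := pow_le_pow_right₀ hs (by norm_num)
  generalize s ^ 61 = u at h61 h261
  have hu1 : 1 ≤ u := hs.trans h61
  refine ⟨hs, h61, Real.le_sqrt_of_sq_le (by nlinarith), ?_⟩
  rw [Real.sqrt_le_left (by linarith)]
  nlinarith

/-- the frequencies and helicities of the six forms of a triad -/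
def cod (r : Fin 6) (j : Fin 3) (t : ℤ) : Z3 × Bool × Z3 × Bool × Z3 × Bool :=
  match r with
  | 0 => (wv j t, true, Wv j t, true, wv j t + Wv j t, false)
  | 1 => (Wv j t, true, wv j t, true, wv j t + Wv j t, false)
  | 2 => (wv j t + Wv j t, false, -Wv j t, true, wv j t, true)
  | 3 => (-Wv j t, true, wv j t + Wv j t, false, wv j t, true)
  | 4 => (wv j t + Wv j t, false, -wv j t, true, Wv j t, true)
  | 5 => (-wv j t, true, wv j t + Wv j t, false, Wv j t, true)

/-- the frequencies and helicities of a triad -/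
def enc (i : Md) (p : Md × Md) : Z3 × Bool × Z3 × Bool × Z3 × Bool :=
  (p.1.1.1, p.1.2, p.2.1.1, p.2.2, i.1.1, i.2)

lemma enc_inj (i : Md) (p p' : Md × Md) (h : enc i p = enc i p') : p = p' := by
  unfold enc at h
  simp only [Prod.mk.injEq] at h
  obtain ⟨h1, h2, h3, h4, -⟩ := h
  exact Prod.ext (Prod.ext (Subtype.ext h1) h2) (Prod.ext (Subtype.ext h3) h4)

lemma wv_inj (j : Fin 3) (t t' : ℤ) (h : wv j t = wv j t') : t = t' := by
  have := congrFun h j
  simpa [wv] using this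

lemma Wv_inj (j : Fin 3) (t t' : ℤ) (h : Wv j t = Wv j t') : t = t' := by
  have h1 := congrFun h (j + 1)
  have h2 : t ^ 61 = t' ^ 61 := by simpa only [Wv, if_true] using h1
  have h3 : StrictMono (fun x : ℤ => x ^ 61) := Odd.strictMono_pow (by decide)
  exact h3.injective h2

lemma y_inj (j : Fin 3) (t t' : ℤ) (h : wv j t + Wv j t = wv j t' + Wv j t') : t = t' := by
  have h1 := congrFun h j
  have h2 : ¬ j = j + 1 := by
    intro h3
    have : (1 : Fin 3) = 0 := by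
      have := h3
      rw [eq_comm, add_eq_left] at this
      exact this
    exact absurd this (by decide)
  simpa only [Pi.add_apply, wv, Wv, if_true, if_neg h2, add_zero] using h1

lemma cod_inj (r : Fin 6) (j : Fin 3) (t t' : ℤ)
    (h : (cod r j t).2.2.2.2.1 = (cod r j t').2.2.2.2.1) : t = t' := by
  fin_cases r
  · exact y_inj j t t' h
  · exact y_inj j t t' h
  · exact wv_inj j t t' h
  · exact wv_inj j t t' h
  · exact Wv_inj j t t' h
  · exact Wv_inj j t t' h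

/-- a sum with few terms -/
lemma tsum_few {α β : Type} [Fintype β] (f : α → ℝ) (c : ℝ) (hc : 0 ≤ c)
    (hfc : ∀ p, f p ≤ c) (g : β → α → Prop) (h1 : ∀ p, f p ≠ 0 → ∃ b, g b p)
    (h2 : ∀ b p p', g b p → g b p' → p = p') :
    Summable f ∧ ∑' p, f p ≤ Fintype.card β * c := by
  classical
  set T : Set α := {p | f p ≠ 0} with hT
  have hch : ∀ p : T, ∃ b, g b p.1 := fun p => h1 p.1 p.2
  choose φ hφ using hch
  have hinj : Function.Injective φ := by
    intro p p' h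
    apply Subtype.ext
    have e1 := hφ p
    have e2 := hφ p'
    rw [← h] at e2
    exact h2 _ _ _ e1 e2
  haveI : Finite T := Finite.of_injective φ hinj
  haveI : Fintype T := Fintype.ofFinite T
  have h0 : ∀ p ∉ T.toFinset, f p = 0 := by
    intro p hp
    by_contra h
    exact hp (by rw [Set.mem_toFinset]; exact h)
  refine ⟨summable_of_ne_finset_zero h0, ?_⟩
  rw [tsum_eq_sum h0]
  have hcard : T.toFinset.card ≤ Fintype.card β := by
    rw [Set.toFinset_card]
    exact Fintype.card_le_of_injective φ hinj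
  calc ∑ p ∈ T.toFinset, f p ≤ T.toFinset.card • c :=
        Finset.sum_le_card_nsmul _ _ _ fun p _ => hfc p
    _ ≤ Fintype.card β * c := by
        rw [nsmul_eq_mul]
        exact mul_le_mul_of_nonneg_right (by exact_mod_cast hcard) hc

/-- the real inequalities -/
lemma core (e : ℝ → ℝ) (δ : ℝ) (hδ : 0 ≤ δ) (he0 : ∀ x, 1 ≤ x → 0 ≤ e x)
    (hanti : ∀ x y, 1 ≤ x → x ≤ y → e y ≤ e x) (hx : ∀ x, 1 ≤ x → x * e x ≤ δ)
    (hY : ∀ x y, 1 ≤ x → x ≤ y → y ≤ x + 1 → e x ≤ 1024 * e y) {s W Y K : ℝ} (hs : 1 ≤ s)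
    (hsW : s ≤ W) (hWY : W ≤ Y) (hY1 : Y ≤ W + 1) (hK : K ≤ 8 * s) :
    K * e W * e Y ≤ 8192 * δ * e s ∧ K * e s * e Y ≤ 8192 * δ * e W ∧
      K * e s * e W ≤ 8192 * δ * e Y := by
  have hW1 : 1 ≤ W := hs.trans hsW
  have hY1' : 1 ≤ Y := hW1.trans hWY
  have hes := he0 s hs
  have heW := he0 W hW1
  have heY := he0 Y hY1'
  have h1 : K * e W ≤ 8 * δ := by
    have h2 := hx W hW1
    have h3 : K * e W ≤ 8 * s * e W := mul_le_mul_of_nonneg_right hK heW
    have h4 : s * e W ≤ W * e W := mul_le_mul_of_nonneg_right hsW heW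
    linarith
  have h2 : K * e s ≤ 8 * δ := by
    have h2 := hx s hs
    have h3 : K * e s ≤ 8 * s * e s := mul_le_mul_of_nonneg_right hK hes
    linarith
  have h3 : e Y ≤ e s := hanti s Y hs (hsW.trans hWY)
  have h4 : e Y ≤ e W := hanti W Y hW1 hWY
  have h5 : e W ≤ 1024 * e Y := hY W Y hW1 hWY hY1
  have h6 : 0 ≤ δ * e s := mul_nonneg hδ hes
  have h7 : 0 ≤ δ * e W := mul_nonneg hδ heW
  refine ⟨?_, ?_, ?_⟩
  · calc K * e W * e Y ≤ 8 * δ * e Y := mul_le_mul_of_nonneg_right h1 heY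
      _ ≤ 8 * δ * e s := mul_le_mul_of_nonneg_left h3 (by linarith)
      _ ≤ 8192 * δ * e s := by nlinarith
  · calc K * e s * e Y ≤ 8 * δ * e Y := mul_le_mul_of_nonneg_right h2 heY
      _ ≤ 8 * δ * e W := mul_le_mul_of_nonneg_left h4 (by linarith)
      _ ≤ 8192 * δ * e W := by nlinarith
  · calc K * e s * e W ≤ 8 * δ * e W := mul_le_mul_of_nonneg_right h2 heW
      _ ≤ 8 * δ * (1024 * e Y) := mul_le_mul_of_nonneg_left h5 (by linarith)
      _ = 8192 * δ * e Y := by ring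

theorem t_STB : Pool.Agent.Y6.G.S_STB := by
  classical
  intro hLV hCODE hVEC hENV hARI hUNR h hF M hM i hi
  obtain ⟨_, _, _, _, hln, _⟩ := hCODE
  obtain ⟨hanti, _, _, _, hE1, hE8⟩ := hENV.1 M hM
  obtain ⟨_, hV2, hV3, hV4⟩ := hVEC h hF
  have hU := (hUNR hLV hARI).2
  have hln1 : ∀ a, 1 ≤ ln a := fun a => (hln a).1
  have hln0 : ∀ a, 0 < ln a := fun a => lt_of_lt_of_le one_pos (hln1 a)
  set e : ℝ → ℝ := fun x => (10 ^ 20)⁻¹ * (x ^ 7)⁻¹ * env M x with he
  set δ : ℝ := (10 ^ 20)⁻¹ with hδ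
  have hδ0 : 0 ≤ δ := by positivity
  have he0 : ∀ x, 1 ≤ x → 0 ≤ e x := by
    intro x hx
    have := (hE1 x).1
    simp only [he]
    positivity
  have hea : ∀ x y, 1 ≤ x → x ≤ y → e y ≤ e x := by
    intro x y hx hxy
    simp only [he]
    have h1 := (hE1 y).1
    have h2 := hanti x y (by linarith) hxy
    have h3 : (y ^ 7)⁻¹ ≤ (x ^ 7)⁻¹ :=
      inv_anti₀ (by positivity) (pow_le_pow_left₀ (by linarith) hxy 7)
    have hy : 0 < y := by linarith
    have hx0 : 0 < x := by linarith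
    gcongr
  have hex : ∀ x, 1 ≤ x → x * e x ≤ δ := by
    intro x hx
    simp only [he]
    have h1 := (hE1 x).1
    have h2 := (hE1 x).2
    have hx0 : 0 < x := by linarith
    have h3 : x * (x ^ 7)⁻¹ ≤ 1 := by
      rw [← div_eq_mul_inv, div_le_one (by positivity)]
      exact le_self_pow₀ hx (by norm_num)
    have h4 : 0 ≤ x * (x ^ 7)⁻¹ := by positivity
    calc x * (δ * (x ^ 7)⁻¹ * env M x) = δ * (x * (x ^ 7)⁻¹ * env M x) := by ring
      _ ≤ δ * (1 * 1) := by gcongr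
      _ = δ := by ring
  have heY : ∀ x y, 1 ≤ x → x ≤ y → y ≤ x + 1 → e x ≤ 1024 * e y := by
    intro x y hx hxy hyx
    simp only [he]
    have h1 := (hE1 x).1
    have h2 := hE8 x y hx hxy hyx
    have hx0 : 0 < x := by linarith
    have hy0 : 0 < y := by linarith
    have h3 : (x ^ 7)⁻¹ ≤ 128 * (y ^ 7)⁻¹ := by
      have h4 : y ^ 7 ≤ (2 * x) ^ 7 := pow_le_pow_left₀ hy0.le (by linarith) 7
      rw [← div_eq_mul_inv, le_div_iff₀ (by positivity), inv_mul_eq_div,
        div_le_iff₀ (by positivity)]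
      calc y ^ 7 ≤ (2 * x) ^ 7 := h4
        _ = 128 * x ^ 7 := by ring
    calc δ * (x ^ 7)⁻¹ * env M x ≤ δ * (128 * (y ^ 7)⁻¹) * (8 * env M y) := by gcongr
      _ = 1024 * (δ * (y ^ 7)⁻¹ * env M y) := by ring
  have hL0 := hln0 i
  have hL1 := hln1 i
  set c : ℝ := 8192 * δ * e (ln i) with hc
  have hc0 : 0 ≤ c := by
    have := he0 (ln i) hL1
    positivity
  have hDu : ∀ p : Md × Md, ¬ 0 < D0 i p → unr p.1 ∧ unr p.2 ∧ unr i := by
    intro p hp
    by_contra hcon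
    apply hp
    unfold D0
    rw [if_neg hcon]
    have hm3 : ln i ≤ mx i p := le_max_right _ _
    have : 0 < mx i p := by linarith
    positivity
  have hcod : ∀ p : Md × Md, ¬ 0 < D0 i p → cK h i p.1 p.2 ≠ 0 →
      ∃ (b : Fin 6 × Fin 3) (t : ℤ), t ≠ 0 ∧ enc i p = cod b.1 b.2 t := by
    intro p hp hne
    obtain ⟨u1, u2, u3⟩ := hDu p hp
    obtain ⟨hs, hnp⟩ := hV4 i p.1 p.2 hne
    obtain ⟨j, t, ht, hall⟩ := hARI i p.1 p.2 u3 u1 u2 hs hnp
    have hh := hall (wv j t) (Wv j t) (wv j t + Wv j t) rfl rfl rfl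
    rcases hh with ⟨e1, e2, e3, e4, e5, e6⟩ | ⟨e1, e2, e3, e4, e5, e6⟩ |
      ⟨e1, e2, e3, e4, e5, e6⟩ | ⟨e1, e2, e3, e4, e5, e6⟩ | ⟨e1, e2, e3, e4, e5, e6⟩ |
      ⟨e1, e2, e3, e4, e5, e6⟩
    · exact ⟨(0, j), t, ht, by simp only [enc, cod, e1, e2, e3, e4, e5, e6]⟩
    · exact ⟨(1, j), t, ht, by simp only [enc, cod, e1, e2, e3, e4, e5, e6]⟩
    · exact ⟨(2, j), t, ht, by simp only [enc, cod, e1, e2, e3, e4, e5, e6]⟩
    · exact ⟨(3, j), t, ht, by simp only [enc, cod, e1, e2, e3, e4, e5, e6]⟩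
    · exact ⟨(4, j), t, ht, by simp only [enc, cod, e1, e2, e3, e4, e5, e6]⟩
    · exact ⟨(5, j), t, ht, by simp only [enc, cod, e1, e2, e3, e4, e5, e6]⟩
  -- the bound of one term
  have hterm : ∀ p : Md × Md, ¬ 0 < D0 i p → cK h i p.1 p.2 ≠ 0 →
      ‖cK h i p.1 p.2‖ * eF M p.1 * eF M p.2 ≤ c := by
    rintro ⟨a, b⟩ hp hne
    obtain ⟨u1, u2, u3⟩ := hDu _ hp
    obtain ⟨hs, hnp⟩ := hV4 i a b hne
    have ha : σM a ≠ 0 := fun h0 => hi (hU i a b u3 u1 u2 hs hnp (Or.inr (Or.inl h0))).1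
    have hb : σM b ≠ 0 := fun h0 => hi (hU i a b u3 u1 u2 hs hnp (Or.inr (Or.inr h0))).1
    have hea' : eF M a = e (ln a) := by
      simp only [he]
      unfold eF
      rw [if_neg ha]
    have heb' : eF M b = e (ln b) := by
      simp only [he]
      unfold eF
      rw [if_neg hb]
    obtain ⟨⟨r, j⟩, t, ht, hen⟩ := hcod _ hp hne
    obtain ⟨l1, l2, l3, l4⟩ := lens j t ht
    show ‖cK h i a b‖ * eF M a * eF M b ≤ c
    rw [hea', heb', hc]
    have hK1 := (hV2 i a b).1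
    have hK2 := (hV2 i a b).2
    have hpi := Real.pi_lt_four
    have hpi0 := Real.pi_pos
    have hK3 : b.2 ≠ i.2 → ‖cK h i a b‖ ≤ 2 * Real.pi * ln a := by
      intro hbi
      have h1 := hV3 i b a hbi hs
      have hb0 := hln0 b
      have ha0 := hln0 a
      have h2 : ‖cK h i a b‖ * ln b ≤ ‖cK h i a b‖ * (ln b + ln i) :=
        mul_le_mul_of_nonneg_left (by linarith) (norm_nonneg _)
      have h3 : ‖cK h i a b‖ * ln b ≤ (2 * Real.pi * ln a) * ln b := by
        refine (h2.trans h1).trans (le_of_eq (by ring))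
      exact le_of_mul_le_mul_right h3 hb0
    unfold enc at hen
    have hto8 : ∀ x : ℝ, 0 ≤ x → ‖cK h i a b‖ ≤ 2 * Real.pi * x → ‖cK h i a b‖ ≤ 8 * x := by
      intro x hx hle
      nlinarith
    have hLn : ∀ x : Md, ln x = len x.1.1 := fun _ => rfl
    fin_cases r
    · -- a = w, b = W, i = y
      simp only [cod, Prod.mk.injEq] at hen
      obtain ⟨e1, e2, e3, e4, e5, e6⟩ := hen
      have hk := hK3 (by rw [e4, e6]; decide)
      rw [hLn, e1] at hk
      rw [hLn a, hLn b, hLn i, e1, e3, e5]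
      exact (core e δ hδ0 he0 hea hex heY l1 l2 l3 l4 (hto8 _ (by linarith) hk)).2.2
    · -- a = W, b = w, i = y
      simp only [cod, Prod.mk.injEq] at hen
      obtain ⟨e1, e2, e3, e4, e5, e6⟩ := hen
      have hk := hK2
      rw [hLn, e3] at hk
      rw [hLn a, hLn b, hLn i, e1, e3, e5]
      have := (core e δ hδ0 he0 hea hex heY l1 l2 l3 l4 (hto8 _ (by linarith) hk)).2.2
      refine le_trans (le_of_eq (by ring)) this
    · -- a = y, b = -W, i = w
      simp only [cod, Prod.mk.injEq] at hen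
      obtain ⟨e1, e2, e3, e4, e5, e6⟩ := hen
      have hk := hK1
      rw [hLn, e5] at hk
      rw [hLn a, hLn b, hLn i, e1, e3, e5, len_neg]
      have := (core e δ hδ0 he0 hea hex heY l1 l2 l3 l4 (hto8 _ (by linarith) hk)).1
      refine le_trans (le_of_eq (by ring)) this
    · -- a = -W, b = y, i = w
      simp only [cod, Prod.mk.injEq] at hen
      obtain ⟨e1, e2, e3, e4, e5, e6⟩ := hen
      have hk := hK1
      rw [hLn, e5] at hk
      rw [hLn a, hLn b, hLn i, e1, e3, e5, len_neg]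
      exact (core e δ hδ0 he0 hea hex heY l1 l2 l3 l4 (hto8 _ (by linarith) hk)).1
    · -- a = y, b = -w, i = W
      simp only [cod, Prod.mk.injEq] at hen
      obtain ⟨e1, e2, e3, e4, e5, e6⟩ := hen
      have hk := hK2
      rw [hLn, e3, len_neg] at hk
      rw [hLn a, hLn b, hLn i, e1, e3, e5, len_neg]
      have := (core e δ hδ0 he0 hea hex heY l1 l2 l3 l4 (hto8 _ (by linarith) hk)).2.1
      refine le_trans (le_of_eq (by ring)) this
    · -- a = -w, b = y, i = W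
      simp only [cod, Prod.mk.injEq] at hen
      obtain ⟨e1, e2, e3, e4, e5, e6⟩ := hen
      have hk := hK3 (by rw [e4, e6]; decide)
      rw [hLn, e1, len_neg] at hk
      rw [hLn a, hLn b, hLn i, e1, e3, e5, len_neg]
      exact (core e δ hδ0 he0 hea hex heY l1 l2 l3 l4 (hto8 _ (by linarith) hk)).2.1
  have key := tsum_few (β := Fin 6 × Fin 3) (fun p : Md × Md => if 0 < D0 i p then 0 else tm h M i p)
    c hc0
    (fun p => by
      show (if 0 < D0 i p then 0 else tm h M i p) ≤ c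
      split_ifs with hD
      · exact hc0
      · unfold tm
        rw [if_neg hD]
        by_cases h0 : cK h i p.1 p.2 = 0
        · rw [h0, norm_zero, zero_mul, zero_mul]
          exact hc0
        · exact hterm p hD h0)
    (fun b p => ¬ 0 < D0 i p ∧ ∃ t : ℤ, enc i p = cod b.1 b.2 t)
    (fun p hp => by
      have hp' : (if 0 < D0 i p then 0 else tm h M i p) ≠ 0 := hp
      by_cases hD : 0 < D0 i p
      · rw [if_pos hD] at hp'
        exact absurd rfl hp'
      · rw [if_neg hD] at hp'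
        have h0 : cK h i p.1 p.2 ≠ 0 := by
          intro h0
          apply hp'
          unfold tm
          rw [if_neg hD, h0, norm_zero, zero_mul, zero_mul]
        obtain ⟨b, t, _, hb⟩ := hcod p hD h0
        exact ⟨b, hD, t, hb⟩)
    (fun b p p' hp hp' => by
      obtain ⟨_, t, h1⟩ := hp
      obtain ⟨_, t', h2⟩ := hp'
      have h3 : t = t' := by
        apply cod_inj b.1 b.2 t t'
        rw [← h1, ← h2]
        rfl
      subst h3
      exact enc_inj i p p' (h1.trans h2.symm))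
  refine ⟨key.1, key.2.trans ?_⟩
  have hcard : (Fintype.card (Fin 6 × Fin 3) : ℝ) = 18 := by
    rw [Fintype.card_prod, Fintype.card_fin, Fintype.card_fin]
    norm_num
  rw [hcard, hc]
  have hX : 0 ≤ (ln i ^ 7)⁻¹ * env M (ln i) := by
    have := (hE1 (ln i)).1
    positivity
  calc 18 * (8192 * δ * e (ln i)) = (18 * 8192 * δ * δ) * ((ln i ^ 7)⁻¹ * env M (ln i)) := by
        simp only [he]
        ring
    _ ≤ (δ / 10) * ((ln i ^ 7)⁻¹ * env M (ln i)) := by
        apply mul_le_mul_of_nonneg_right _ hX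
        rw [hδ]
        norm_num
    _ = _ := by ring

end Pool.Agent.Y396.EP.STB
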